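import Pool.Agent.Lib.helper21.PTInt
import Pool.Prelude.Def_H_3587d628

/-! Conversions between raw bit strings and typed encodings; polynomials; integer division. -/

namespace Pool.Agent.Lib.helper77

open Pool.Agent.Lib.helper21 Enc Function Turing

variable {α β : Type} [Enc α] [Enc β]

/-- Bit strings encoded by themselves. -/
structure Raw where
  w : List Bool

instance : Enc Raw := ⟨Raw.w⟩

@[simp] theorem sz_raw (x : Raw) : sz x = x.w.length := rfl

theorem PT.toRaw {f : α → List Bool} (hf : PT f) : PT fun a => Raw.mk (f a) := by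
  have h : PT fun p : α × Raw × Bool => Raw.mk (p.2.2 :: p.2.1.w) :=
    Rl.consBit (b := fun p : α × Raw × Bool => p.2.2) 
      (show PT fun p : α × Raw × Bool => p.2.2 by fun_prop)
      (show PT fun p : α × Raw × Bool => p.2.1 by fun_prop)
  refine (PT.foldl_add (f := fun _ (s : Raw) x => Raw.mk (x :: s.w)) h hf.reverse
    (PT.const ⟨[]⟩) (fun _ => 1) (Bd.const _ _) fun a s x => by simp).of_eq fun a => ?_
  have : ∀ (l : List Bool) (s : List Bool),
      l.foldl (fun (s : Raw) x => Raw.mk (x :: s.w)) ⟨s⟩ = ⟨l.reverse ++ s⟩ := by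
    intro l
    induction l with
    | nil => intro s; rfl
    | cons b l ih => intro s; simp [ih]
  simp [this]

theorem PT.ofRaw : PT Raw.w := by
  have h1 : PT fun x : Raw => Raw.mk x.w.tail := Rl.tail (Rl.id _)
  have h2 : PT fun x : Raw => x.w.head?.getD false := Rl.head (Rl.id _) fun o => o.getD false
  let step : Raw × List Bool → Raw × List Bool :=
    fun s => (⟨s.1.w.tail⟩, s.1.w.head?.getD false :: s.2)
  have h3 : PT fun p : Raw × Raw × List Bool => step p.2 :=
    PT.pair (h1.comp (by fun_prop)) (PT.cons (h2.comp (by fun_prop)) (by fun_prop))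
  have h4 := PT.iterate_add (f := fun _ : Raw => step) (n := fun x => sz x)
    (init := fun x => (x, [])) h3 (by fun_prop) (by fun_prop) (fun _ => 4) (Bd.const _ _)
    fun a s => by
      obtain ⟨x, l⟩ := s
      simp only [step, sz_pair, sz_raw, sz_cons, sz_bool, List.length_tail]
      omega
  refine h4.snd.reverse.of_eq fun x => ?_
  have : ∀ (l acc : List Bool), step^[l.length] (⟨l⟩, acc) = (⟨[]⟩, l.reverse ++ acc) := by
    intro l
    induction l with
    | nil => intro acc; rfl
    | cons b l ih => intro acc; simp [step, ih]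
  obtain ⟨l⟩ := x
  simp [this]

theorem bitEncode_list (x : List Bool) :
    N487b59b3.bitEncode x = x.flatMap fun b => [true, b, false] := by
  show ((x.map N487b59b3.bitEncode).map N487b59b3.delimit).flatten = _
  induction x with
  | nil => rfl
  | cons b x ih => simp only [List.map_cons, List.flatten_cons, ih, List.flatMap_cons]; rfl

theorem delimit_eq (y : List Bool) :
    N487b59b3.delimit y = (y.flatMap fun b => [true, b]) ++ [false] := by
  induction y with
  | nil => rfl
  | cons b y ih => simp [N487b59b3.delimit, ih]

/-- A function on bit strings whose output code is computed in polynomial time is computed by a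
polynomial-time machine, for the input encoding of the prelude. -/
theorem toPrelude {γ : Type} {f : List Bool → γ} {e : γ → List Bool} (h : PT fun x => e (f x)) :
    Nonempty (TM2ComputableInPolyTime (N487b59b3.bitEncode : List Bool → List Bool) e f) := by
  let dec : List Bool → List Bool := fun y =>
    (List.range y.length).flatMap fun i => cond (decide (3 * i < y.length)) [y.getD (3 * i + 1) false] []
  have h1 : PT dec := by fun_prop
  have h2 : ∀ x : List Bool, dec (x.flatMap fun b => [true, b, false]) = x := by
    intro x
    have hl : ∀ x : List Bool, (x.flatMap fun b => [true, b, false]).length = 3 * x.length := by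
      intro x
      induction x with
      | nil => rfl
      | cons b x ih => simp only [List.flatMap_cons, List.length_append, ih]; simp; omega
    have hg : ∀ (x : List Bool) (i : ℕ),
        (x.flatMap fun b => [true, b, false]).getD (3 * i + 1) false = x.getD i false := by
      intro x
      induction x with
      | nil => simp
      | cons b x ih =>
        intro i
        cases i with
        | zero => simp
        | succ i =>
          rw [List.getD_cons_succ, ← ih i, show 3 * (i + 1) + 1 = 3 * i + 1 + 1 + 1 + 1 by omega]
          simp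
    simp only [dec, hl, hg]
    have e1 : List.range (3 * x.length) = List.range x.length ++
        (List.range (2 * x.length)).map (x.length + ·) := by
      rw [← List.range_add]; congr 1; omega
    have e2 : (((List.range (2 * x.length)).map (x.length + ·)).flatMap fun i =>
        cond (decide (3 * i < 3 * x.length)) [x.getD i false] []) = [] := by
      rw [List.flatMap_eq_nil_iff]
      intro i hi
      obtain ⟨j, _, rfl⟩ := List.mem_map.1 hi
      rw [decide_eq_false (by omega)]; rfl
    rw [e1, List.flatMap_append, e2, List.append_nil]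
    rw [List.flatMap_congr (g := fun i => [x.getD i false]) (by
      intro i hi
      rw [decide_eq_true (by have := List.mem_range.1 hi; omega)]; rfl)]
    rw [← List.map_eq_flatMap]
    apply List.ext_getElem
    · simp
    · intro i h1 h2
      simp [List.getD_eq_getElem?_getD, h2]
  have h3 : PT fun y : Raw => Raw.mk (e (f (dec y.w))) := PT.toRaw (h.comp (h1.comp PT.ofRaw))
  refine Rl.toTM2 ((Rl.reindex h3 fun x => Raw.mk (N487b59b3.bitEncode x)).congr fun x => ?_)
  show e (f (dec (N487b59b3.bitEncode x))) = _
  rw [bitEncode_list, h2]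

theorem PT.natPow {f : α → ℕ} (hf : PT f) (k : ℕ) : PT fun a => f a ^ k := by
  induction k with
  | zero => exact (PT.const 1).of_eq fun a => by simp
  | succ k ih => exact (ih.mul hf).of_eq fun a => by rw [pow_succ]

theorem PT.poly {f : α → ℕ} (hf : PT f) (q : Polynomial ℕ) : PT fun a => q.eval (f a) := by
  induction q using Polynomial.induction_on' with
  | add p q hp hq => exact (hp.add hq).of_eq fun a => by rw [Polynomial.eval_add]
  | monomial k c =>
    exact ((PT.const c).mul (PT.natPow hf k)).of_eq fun a => by rw [Polynomial.eval_monomial]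

/-- One step of long division. -/
def dstep (d : ℤ) (s : ℤ × ℤ) (b : Bool) : ℤ × ℤ :=
  cond (decide (2 * s.2 + cond b 1 0 < d)) (2 * s.1, 2 * s.2 + cond b 1 0)
    (2 * s.1 + 1, 2 * s.2 + cond b 1 0 - d)

theorem dstep_fold (d : ℕ) (hd : 0 < d) (l : List Bool) : ∀ n : ℕ,
    l.foldl (dstep d) (((n / d : ℕ) : ℤ), ((n % d : ℕ) : ℤ)) =
      (((valB l n / d : ℕ) : ℤ), ((valB l n % d : ℕ) : ℤ)) := by
  induction l with
  | nil => intro n; rfl
  | cons b l ih =>
    intro n
    rw [List.foldl_cons, show valB (b :: l) n = valB l (Nat.bit b n) from rfl, ← ih]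
    congr 1
    have h1 := Nat.div_add_mod n d
    have h2 := Nat.mod_lt n hd
    have h3 : Nat.bit b n = 2 * n + cond b 1 0 := by cases b <;> simp [Nat.bit]
    have h4 : ((cond b 1 0 : ℕ) : ℤ) = cond b 1 0 := by cases b <;> rfl
    have h5 : cond b 1 0 ≤ 1 := by cases b <;> simp
    rw [h3, dstep, ← h4]
    generalize cond b 1 0 = c at h5 ⊢
    dsimp only
    by_cases h : 2 * (n % d) + c < d
    · obtain ⟨e1, e2⟩ := (Nat.div_mod_unique (a := 2 * n + c) (c := 2 * (n % d) + c)
        (d := 2 * (n / d)) hd).2 ⟨by nlinarith, h⟩
      rw [e1, e2, decide_eq_true (by exact_mod_cast h)]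
      simp
    · obtain ⟨e1, e2⟩ := (Nat.div_mod_unique (a := 2 * n + c) (c := 2 * (n % d) + c - d)
        (d := 2 * (n / d) + 1) hd).2 ⟨by rw [mul_add, mul_left_comm]; omega, by omega⟩
      rw [e1, e2, decide_eq_false (by exact_mod_cast h), Nat.cast_sub (by omega)]
      simp

theorem valB_take_le (l : List Bool) (j n : ℕ) : valB (l.take j) n ≤ valB l n := by
  have h : ∀ (l : List Bool) (n : ℕ), n ≤ valB l n := by
    intro l
    induction l with
    | nil => exact fun n => le_rfl
    | cons b l ih =>
      intro n
      refine le_trans ?_ (ih (Nat.bit b n))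
      cases b <;> simp [Nat.bit] <;> omega
  conv_rhs => rw [← List.take_append_drop j l]
  unfold valB
  rw [List.foldl_append]
  exact h _ _

/-- Quotient and remainder of binary natural numbers, for a positive divisor. -/
theorem PT.divMod {f g : α → ℕ} (hf : PT fun a => (f a : ℤ)) (hg : PT fun a => (g a : ℤ))
    (h : ∀ a, 0 < g a) : PT fun a => (((f a / g a : ℕ) : ℤ), ((f a % g a : ℕ) : ℤ)) := by
  have h1 : PT fun p : α × (ℤ × ℤ) × Bool => dstep (g p.1) p.2.1 p.2.2 := by
    have : PT fun p : α × (ℤ × ℤ) × Bool => (g p.1 : ℤ) := hg.comp (by fun_prop)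
    unfold dstep
    fun_prop
  have h2 : ∀ a, valB (digs (absB (f a))) 0 = f a := fun a => by rw [valB_digs]; simp [absB]
  refine (PT.foldl (f := fun a => dstep (g a)) (init := fun _ => ((0 : ℤ), (0 : ℤ))) h1
    hf.absB.digs (PT.const _) (fun a => 3 * sz (f a : ℤ) + 1)
    (((Bd.const _ _).mul hf.bd).add (Bd.const _ _)) fun a j => ?_).of_eq fun a => ?_
  · have e := dstep_fold (g a) (h a) ((digs (absB (f a))).take j) 0
    simp only [Nat.zero_div, Nat.zero_mod, Nat.cast_zero] at e
    have b := valB_take_le (digs (absB (f a))) j 0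
    rw [h2] at b
    rw [e]
    have b1 := Nat.size_le_size ((Nat.div_le_self _ (g a)).trans b)
    have b2 := Nat.size_le_size ((Nat.mod_le _ (g a)).trans b)
    simp only [sz_pair, sz_int, Int.natAbs_natCast]
    omega
  · have e := dstep_fold (g a) (h a) (digs (absB (f a))) 0
    simp only [Nat.zero_div, Nat.zero_mod, Nat.cast_zero] at e
    rw [e, h2]

/-- Exact division of an integer by a positive constant. -/
theorem PT.exactDiv {f g : α → ℤ} (d : ℕ) (hd : 0 < d) (hg : PT g) (h : ∀ a, g a = d * f a) :
    PT f := by
  have h1 : PT fun a => ((g a).natAbs : ℤ) := hg.absB.toZ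
  have h2 := (PT.divMod (f := fun a => (g a).natAbs) (g := fun _ => d) h1 (PT.const _)
    fun _ => hd).fst
  refine (PT.cond hg.isNeg h2.intNeg h2).of_eq fun a => ?_
  simp only [h a, Int.natAbs_mul, Int.natAbs_natCast, Nat.mul_div_cancel_left _ hd, isNeg]
  have : (d : ℤ) * f a < 0 ↔ f a < 0 := by
    constructor <;> intro h <;> nlinarith [show (0 : ℤ) < d by exact_mod_cast hd]
  by_cases h0 : f a < 0
  · simp only [this, h0, decide_true, cond_true]; omega
  · simp only [this, h0, decide_false, cond_false]; omega

end Pool.Agent.Lib.helper77
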