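import Pool.Agent.Lib.helper77.Micro
import Pool.Agent.Lib.helper77.Raw

/-! The Cook-Levin theorem for the class `NP` of the prelude: binary constraint satisfaction,
CNF satisfiability and exact hitting set are hard. -/

namespace Pool.Agent.Lib.helper77

open Pool.Agent.Lib.helper21 Enc Function Turing Turing.TM2

/-- Forbidden pairs of values for a list of constraints. -/
def forb (tab cons : List (ℕ × ℕ × ℕ)) : List (ℕ × ℕ × ℕ × ℕ) :=
  cons.flatMap fun e => (tab.filter fun t => decide (t.1 = e.1)).map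
    fun t => (e.2.1, t.2.1, e.2.2, t.2.2)

theorem code_csp {D : Type} (vals : List D) (rel : ℕ → D → D → Prop) (r : ℕ) :
    ∃ tab : List (ℕ × ℕ × ℕ), (∀ t ∈ tab, t.2.1 < vals.length ∧ t.2.2 < vals.length) ∧
      ∀ cons : List (ℕ × ℕ × ℕ), (∀ e ∈ cons, e.1 < r) →
        ((∃ A : ℕ → D, (∀ c, A c ∈ vals) ∧ ∀ e ∈ cons, rel e.1 (A e.2.1) (A e.2.2)) ↔
        ∃ a : ℕ → ℕ, (∀ c, a c < vals.length) ∧
          ∀ f ∈ forb tab cons, ¬ (a f.1 = f.2.1 ∧ a f.2.2.1 = f.2.2.2)) := by
  have hfin : {t : ℕ × ℕ × ℕ | t.1 < r ∧ ∃ (ha : t.2.1 < vals.length) (hb : t.2.2 < vals.length),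
      ¬ rel t.1 vals[t.2.1] vals[t.2.2]}.Finite :=
    ((Set.finite_Iio r).prod ((Set.finite_Iio vals.length).prod
      (Set.finite_Iio vals.length))).subset fun t ⟨h1, h2, h3, _⟩ => ⟨h1, h2, h3⟩
  have hm : ∀ t, t ∈ hfin.toFinset.toList ↔ t.1 < r ∧ ∃ (ha : t.2.1 < vals.length)
      (hb : t.2.2 < vals.length), ¬ rel t.1 vals[t.2.1] vals[t.2.2] := fun t => by
    rw [Finset.mem_toList, Set.Finite.mem_toFinset]; rfl
  refine ⟨hfin.toFinset.toList, fun t ht => ?_, fun cons hc => ⟨?_, ?_⟩⟩
  · obtain ⟨_, h1, h2, _⟩ := (hm t).1 ht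
    exact ⟨h1, h2⟩
  · rintro ⟨A, hA, h⟩
    choose a ha e using fun c => List.getElem_of_mem (hA c)
    refine ⟨a, ha, fun f hf => ?_⟩
    simp only [forb, List.mem_flatMap, List.mem_map, List.mem_filter, decide_eq_true_eq] at hf
    obtain ⟨c, hc', t, ⟨ht, ht'⟩, rfl⟩ := hf
    rintro ⟨h1, h2⟩
    obtain ⟨_, h3, h4, h5⟩ := (hm t).1 ht
    have := h c hc'
    rw [← e, ← e c.2.2] at this
    dsimp only at h1 h2
    simp only [h1, h2, ← ht'] at this
    exact h5 this
  · rintro ⟨a, ha, h⟩
    refine ⟨fun c => vals[a c]'(ha c), fun c => List.getElem_mem _, fun e he => ?_⟩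
    by_contra h0
    refine h (e.2.1, a e.2.1, e.2.2, a e.2.2) ?_ ⟨rfl, rfl⟩
    simp only [forb, List.mem_flatMap, List.mem_map, List.mem_filter, decide_eq_true_eq]
    exact ⟨e, he, (e.1, a e.2.1, a e.2.2), ⟨(hm _).2 ⟨hc e he, ha _, ha _, h0⟩, rfl⟩, rfl⟩

theorem blocks {G : Type} (inp : Bool ≃ G) (p : ℕ) : ∀ (f : ℕ → Option G) (H : ℕ), 3 * p ≤ H →
    (∀ m < p, (f (3 * m) = none ∧ f (3 * m + 1) = none) ∨
      (f (3 * m) = some (inp true) ∧ f (3 * m + 1) ≠ none)) →
    (∀ m < p, (f (3 * m + 1) = none ∧ f (3 * m + 2) = none) ∨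
      (f (3 * m + 1) ≠ none ∧ f (3 * m + 2) = some (inp false))) →
    (∀ j < H, f j = none → f (j + 1) = none) → f (3 * p) = none →
    ∃ w : List Bool, w.length ≤ p ∧
      ∀ j < H + 1, f j = ((w.flatMap fun b => [true, b, false]).map inp)[j]? := by
  have key : ∀ (f : ℕ → Option G) (H : ℕ), (∀ j < H, f j = none → f (j + 1) = none) →
      f 0 = none → ∀ j < H + 1, f j = none := by
    intro f H h h0 j
    induction j with
    | zero => exact fun _ => h0
    | succ j ih => exact fun hj => h j (by omega) (ih (by omega))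
  induction p with
  | zero => exact fun f H _ _ _ h h0 => ⟨[], le_rfl, key f H h h0⟩
  | succ p ih =>
    intro f H hH h1 h2 h3 h4
    rcases h1 0 (by omega) with ⟨h0, _⟩ | ⟨h5, h6⟩
    · exact ⟨[], by simp, key f H h3 h0⟩
    · obtain ⟨g, hg⟩ := Option.ne_none_iff_exists'.1 h6
      have h7 := ((h2 0 (by omega)).resolve_left fun h => h6 h.1).2
      obtain ⟨w, hw, e⟩ := ih (fun j => f (j + 3)) (H - 3) (by omega)
        (fun m hm => h1 (m + 1) (by omega)) (fun m hm => h2 (m + 1) (by omega))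
        (fun j hj => by
          rw [show j + 1 + 3 = j + 3 + 1 by omega]; exact h3 (j + 3) (by omega)) h4
      refine ⟨inp.symm g :: w, by simpa using hw, fun j hj => ?_⟩
      match j with
      | 0 => simpa using h5
      | 1 => simpa using hg
      | 2 => simpa using h7
      | j + 3 => simpa using e j (by omega)

section
variable {K : Type} [DecidableEq K] {Γ : K → Type} {Λ σ : Type} (M : Λ → Stmt Γ Λ σ)
  (k0 k1 : K) (q0 : Ctl Γ Λ σ) (inp : Bool ≃ Γ k0) (out : Γ k1)

/-- All local rules, including those for the first and the last row. -/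
def rel : ℕ → Dm Γ Λ σ → Dm Γ Λ σ → Prop
  | 7, x, _ => x.1 = q0 ∧ ∀ k, k ≠ k0 → x.2.2 k = none
  | 8, x, _ => x.2.2 k0 = some (inp false)
  | 9, x, _ => x.2.2 k0 = some (inp true)
  | 10, x, y => (x.2.2 k0 = none ∧ y.2.2 k0 = none) ∨
      (x.2.2 k0 = some (inp true) ∧ y.2.2 k0 ≠ none)
  | 11, x, y => (x.2.2 k0 = none ∧ y.2.2 k0 = none) ∨
      (x.2.2 k0 ≠ none ∧ y.2.2 k0 = some (inp false))
  | 12, x, y => x.2.2 k0 = none → y.2.2 k0 = none
  | 13, x, _ => x.2.2 k0 = none
  | 14, x, _ => x.2.2 k1 = some out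
  | ρ, x, y => rule M ρ x y

end

/-- The constraints of the tableau. -/
def tcons (y : List Bool) (p N H : ℕ) : List (ℕ × ℕ × ℕ) :=
  ((List.range (N + 1)).flatMap fun i => (List.range H).map fun j =>
    (0, i * (H + 1) + j, i * (H + 1) + (j + 1))) ++
  (((List.range (N + 1)).map fun i => (1, i * (H + 1) + 0, i * (H + 1) + 0)) ++
  (((List.range N).flatMap fun i => (List.range (H + 1)).map fun j =>
    (2, i * (H + 1) + j, (i + 1) * (H + 1) + j)) ++
  (((List.range N).flatMap fun i => (List.range H).map fun j =>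
    (3, i * (H + 1) + (j + 1), (i + 1) * (H + 1) + j)) ++
  (((List.range N).flatMap fun i => (List.range H).map fun j =>
    (4, i * (H + 1) + j, (i + 1) * (H + 1) + (j + 1))) ++
  (((List.range N).map fun i => (5, i * (H + 1) + 0, (i + 1) * (H + 1) + 0)) ++
  (((List.range (N + 1)).map fun i => (6, i * (H + 1) + H, i * (H + 1) + H)) ++
  (((List.range (H + 1)).map fun j => (7, j, j)) ++
  (((List.range y.length).map fun j => (cond (y.getD j false) 9 8, j, j)) ++
  (((List.range p).map fun m => (10, y.length + 3 * m, y.length + (3 * m + 1))) ++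
  (((List.range p).map fun m => (11, y.length + (3 * m + 1), y.length + (3 * m + 2))) ++
  (((List.range H).map fun j => (12, j, j + 1)) ++
  [(13, y.length + 3 * p, y.length + 3 * p), (14, N * (H + 1) + 0, N * (H + 1) + 0)])))))))))))

theorem tcons_lt (y : List Bool) (p N H : ℕ) : ∀ e ∈ tcons y p N H, e.1 < 15 := by
  simp only [tcons, List.forall_mem_append, List.forall_mem_flatMap, List.forall_mem_map,
    List.forall_mem_cons]
  refine ⟨?_, ?_, ?_, ?_, ?_, ?_, ?_, ?_, fun j _ => ?_, ?_⟩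
  all_goals first | (cases y.getD j false <;> simp) | simp

theorem length_enc (w : List Bool) : (w.flatMap fun b => [true, b, false]).length = 3 * w.length := by
  induction w with
  | nil => rfl
  | cons b x ih => simp only [List.flatMap_cons, List.length_append, ih]; simp; omega

section
variable {K : Type} [DecidableEq K] {Γ : K → Type} {Λ σ : Type} (M : Λ → Stmt Γ Λ σ)
  (k0 k1 : K) (q0 : Ctl Γ Λ σ) (inp : Bool ≃ Γ k0) (out : Γ k1)

theorem tcons_sound (y : List Bool) (p N H : ℕ) (hH : y.length + 3 * p + N ≤ H)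
    (c : List Bool → MC Γ Λ σ) (hc1 : ∀ w, (c w).1 = q0) (hc2 : ∀ w k, k ≠ k0 → (c w).2 k = [])
    (hc3 : ∀ w, (c w).2 k0 = (y ++ w.flatMap fun b => [true, b, false]).map inp)
    (A : ℕ → Dm Γ Λ σ)
    (h : ∀ e ∈ tcons y p N H, rel M k0 k1 q0 inp out e.1 (A e.2.1) (A e.2.2)) :
    ∃ w : List Bool, w.length ≤ p ∧ (((mstep M)^[N] (c w)).2 k1)[0]? = some out := by
  simp only [tcons, List.forall_mem_append, List.forall_mem_flatMap, List.forall_mem_map,
    List.forall_mem_cons, List.mem_range] at h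
  obtain ⟨r0, r1, r2, r3, r4, r5, r6, r7, r8, r10, r11, r12, r13, r14, _⟩ := h
  have hT : Tab M (fun i j => A (i * (H + 1) + j)) N H := ⟨r0, r1, r2, r3, r4, r5, r6⟩
  obtain ⟨w, hw, e⟩ := blocks inp p (fun j => (A (y.length + j)).2.2 k0) (H - y.length) (by omega)
    r10 r11 (fun j hj => r12 (y.length + j) (by omega)) r13
  refine ⟨w, hw, ?_⟩
  have := tab_sound M hT (c w) (fun k => ?_) (fun j hj => ?_) N (by omega) 0 (by omega)
  · rw [← this.2]; exact r14
  · by_cases hk : k = k0
    · subst hk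
      rw [hc3, List.length_map, List.length_append, length_enc]; omega
    · rw [hc2 w k hk]; simp; omega
  · simp only [Nat.zero_mul, Nat.zero_add]
    refine ⟨(r7 j hj).1.trans (hc1 w).symm, fun k => ?_⟩
    by_cases hk : k = k0
    · subst hk
      rw [hc3, List.map_append]
      rcases Nat.lt_or_ge j y.length with h1 | h1
      · have := r8 j h1
        rw [List.getElem?_append_left (by simpa using h1), List.getElem?_map,
          List.getElem?_eq_getElem h1]
        rw [List.getD_eq_getElem _ _ h1] at this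
        revert this
        cases y[j] <;> exact id
      · obtain ⟨j, rfl⟩ := Nat.exists_eq_add_of_le h1
        rw [List.getElem?_append_right (by simp), e j (by omega)]
        simp
    · rw [hc2 w k hk, (r7 j hj).2 k hk]; rfl

theorem tcons_complete (y : List Bool) (p N H : ℕ) (hH : y.length + 3 * p + N ≤ H)
    (c : MC Γ Λ σ) (w : List Bool) (hw : w.length ≤ p) (hc1 : c.1 = q0)
    (hc2 : ∀ k, k ≠ k0 → c.2 k = [])
    (hc3 : c.2 k0 = (y ++ w.flatMap fun b => [true, b, false]).map inp)
    (ho : (((mstep M)^[N] c).2 k1)[0]? = some out) :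
    ∀ e ∈ tcons y p N H, rel M k0 k1 q0 inp out e.1
      (cellOf ((mstep M)^[e.2.1 / (H + 1)] c) (e.2.1 % (H + 1)))
      (cellOf ((mstep M)^[e.2.2 / (H + 1)] c) (e.2.2 % (H + 1))) := by
  have hT := tab_complete M c N H fun k => by
    by_cases hk : k = k0
    · subst hk
      rw [hc3, List.length_map, List.length_append, length_enc]; omega
    · rw [hc2 k hk]; simp; omega
  have d1 : ∀ i j, j < H + 1 → (i * (H + 1) + j) / (H + 1) = i ∧ (i * (H + 1) + j) % (H + 1) = j :=
    fun i j hj => (Nat.div_mod_unique (by omega)).2 ⟨by ring, hj⟩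
  have d2 : ∀ j, j < H + 1 → j / (H + 1) = 0 ∧ j % (H + 1) = j := fun j hj => by
    simpa using d1 0 j hj
  have e0 : ∀ j, (c.2 k0)[y.length + j]? = ((w.flatMap fun b => [true, b, false]).map inp)[j]? := by
    intro j
    rw [hc3, List.map_append, List.getElem?_append_right (by simp)]
    simp
  have e1 : ∀ (w : List Bool) (m : ℕ),
      (((w.flatMap fun b => [true, b, false]).map inp)[3 * m]? = none ∧
      ((w.flatMap fun b => [true, b, false]).map inp)[3 * m + 1]? = none ∧
      ((w.flatMap fun b => [true, b, false]).map inp)[3 * m + 2]? = none) ∨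
      (((w.flatMap fun b => [true, b, false]).map inp)[3 * m]? = some (inp true) ∧
      ((w.flatMap fun b => [true, b, false]).map inp)[3 * m + 1]? ≠ none ∧
      ((w.flatMap fun b => [true, b, false]).map inp)[3 * m + 2]? = some (inp false)) := by
    intro w
    induction w with
    | nil => simp
    | cons b w ih =>
      intro m
      cases m with
      | zero => simp
      | succ m => exact ih m
  simp only [tcons, List.forall_mem_append, List.forall_mem_flatMap, List.forall_mem_map,
    List.forall_mem_cons, List.mem_range]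
  refine ⟨fun i hi j hj => ?_, fun i hi => ?_, fun i hi j hj => ?_, fun i hi j hj => ?_,
    fun i hi j hj => ?_, fun i hi => ?_, fun i hi => ?_, fun j hj => ?_, fun j hj => ?_,
    fun m hm => ?_, fun m hm => ?_, fun j hj => ?_, ?_, ?_, by simp⟩
  · simp only [d1 i j (by omega), d1 i (j + 1) (by omega)]; exact hT.r0 i hi j hj
  · simp only [d1 i 0 (by omega)]; exact hT.r1 i hi
  · simp only [d1 i j hj, d1 (i + 1) j hj]; exact hT.r2 i hi j hj
  · simp only [d1 i (j + 1) (by omega), d1 (i + 1) j (by omega)]; exact hT.r3 i hi j hj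
  · simp only [d1 i j (by omega), d1 (i + 1) (j + 1) (by omega)]; exact hT.r4 i hi j hj
  · simp only [d1 i 0 (by omega), d1 (i + 1) 0 (by omega)]; exact hT.r5 i hi
  · simp only [d1 i H (by omega)]; exact hT.r6 i hi
  · simp only [d2 j hj]
    exact ⟨hc1, fun k hk => by simp [cellOf, hc2 k hk]⟩
  · simp only [d2 j (by omega)]
    have : (c.2 k0)[j]? = some (inp (y.getD j false)) := by
      rw [hc3, List.map_append, List.getElem?_append_left (by simpa using hj), List.getElem?_map,
        List.getElem?_eq_getElem hj, List.getD_eq_getElem _ _ hj]; rfl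
    revert this
    cases y.getD j false <;> exact id
  · simp only [d2 (y.length + 3 * m) (by omega), d2 (y.length + (3 * m + 1)) (by omega), rel,
      cellOf, iterate_zero, id, e0]
    exact (e1 w m).imp (fun h => ⟨h.1, h.2.1⟩) fun h => ⟨h.1, h.2.1⟩
  · simp only [d2 (y.length + (3 * m + 2)) (by omega), d2 (y.length + (3 * m + 1)) (by omega), rel,
      cellOf, iterate_zero, id, e0]
    exact (e1 w m).imp (fun h => h.2) fun h => h.2
  · simp only [d2 j (by omega), d2 (j + 1) (by omega), rel, cellOf, iterate_zero, id,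
      List.getElem?_eq_none_iff]
    omega
  · simp only [d2 (y.length + 3 * p) (by omega), rel, cellOf, iterate_zero, id, e0,
      List.getElem?_eq_none_iff, List.length_map, length_enc]
    omega
  · simp only [d1 N 0 (by omega)]; exact ho

end

/-- Binary constraint satisfaction over a fixed finite domain is hard for `NP`. A quadruple
`(c, a, c', b)` forbids giving `c` the value `a` and `c'` the value `b`. -/
theorem csp_hard (L : List Bool → Bool) (hL : L ∈ N68a2faeb.NP) :
    ∃ (q : ℕ) (F : List Bool → List (ℕ × ℕ × ℕ × ℕ)), PT F ∧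
      (∀ x, ∀ f ∈ F x, f.2.1 < q ∧ f.2.2.2 < q) ∧
      ∀ x, L x = true ↔ ∃ a : ℕ → ℕ, (∀ c, a c < q) ∧
        ∀ f ∈ F x, ¬ (a f.1 = f.2.1 ∧ a f.2.2.1 = f.2.2.2) := by
  obtain ⟨p, R, ⟨⟨⟨tm, ein, eout⟩, time, hT⟩⟩, hR⟩ := hL
  have := tm.kFin
  have := tm.ΛFin
  have := tm.σFin
  have := tm.Γk₀Fin
  let G : Set (Σ k, tm.Γ k) := (⋃ l, pushes (tm.m l)) ∪ Set.range (Sigma.mk tm.k₀)
  have hG : G.Finite := (Set.finite_iUnion fun l => pushes_finite _).union (Set.finite_range _)
  have hfin := good_finite tm.m hG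
  let q0 : Ctl tm.Γ tm.Λ tm.σ := (some (tm.m tm.main), tm.initialState)
  obtain ⟨tab, ht1, ht2⟩ := code_csp hfin.toFinset.toList
    (rel tm.m tm.k₀ tm.k₁ q0 ein.symm (eout.symm true)) 15
  let D := Finset.univ.sup fun l => depth (tm.m l)
  let y : List Bool → List Bool := fun x =>
    ((x.flatMap fun b => [true, b, false]).flatMap fun b => [true, b]) ++ [false]
  let P : List Bool → ℕ := fun x => p.eval (x.length)
  let N : List Bool → ℕ := fun x => D * time.eval ((y x).length + 3 * P x)
  have hy : PT y := by fun_prop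
  have hP : PT P := PT.poly (by fun_prop) p
  have hN : PT N := (PT.const D).mul (PT.poly (by fun_prop) time)
  let c : List Bool → List Bool → MC tm.Γ tm.Λ tm.σ := fun x w =>
    conv tm.m (initList tm ((y x ++ w.flatMap fun b => [true, b, false]).map ein.symm))
  have hc2 : ∀ x w k, k ≠ tm.k₀ → (c x w).2 k = [] := fun x w k hk => dif_neg hk
  have hc3 : ∀ x w, (c x w).2 tm.k₀ =
      (y x ++ w.flatMap fun b => [true, b, false]).map ein.symm := fun x w => dif_pos rfl
  have hrun : ∀ x (w : List Bool), w.length ≤ P x →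
      (((mstep tm.m)^[N x] (c x w)).2 tm.k₁)[0]? = some (eout.symm (R (x, w))) := by
    intro x w hw
    obtain ⟨⟨n, hn⟩, hn'⟩ := hT (x, w)
    have e : (N487b59b3.toEncoding (α := List Bool × List Bool)).encode (x, w) =
        y x ++ w.flatMap fun b => [true, b, false] := by
      show N487b59b3.delimit (N487b59b3.bitEncode x) ++ N487b59b3.bitEncode w = _
      rw [delimit_eq, bitEncode_list, bitEncode_list]
    dsimp only at hn'
    rw [e] at hn hn'
    obtain ⟨d, hd, e1⟩ := sim_run tm.m D (fun l => Finset.le_sup (f := fun l => depth (tm.m l))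
      (Finset.mem_univ l)) n _ _ hn
    have e2 := run_halt tm.m e1 rfl (N := N x) (hd.trans (Nat.mul_le_mul_left _ (hn'.trans
      (eval_mono _ (by rw [List.length_append, length_enc]; omega)))))
    have e3 : (mstep tm.m)^[N x] (c x w) = _ := e2
    rw [e3]
    exact congrArg (·[0]?) (dif_pos rfl : (haltList tm _).stk tm.k₁ = _)
  refine ⟨_, fun x => forb tab (tcons (y x) (P x) (N x) ((y x).length + 3 * P x + N x)), ?_,
    fun x f hf => ?_, fun x => (hR x).trans (Iff.trans ⟨?_, ?_⟩ (ht2 _ (tcons_lt _ _ _ _)))⟩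
  · unfold forb tcons
    fun_prop
  · simp only [forb, List.mem_flatMap, List.mem_map, List.mem_filter] at hf
    obtain ⟨e, _, t, ⟨ht, _⟩, rfl⟩ := hf
    exact ht1 t ht
  · rintro ⟨w, hw, hw'⟩
    refine ⟨fun e => cellOf ((mstep tm.m)^[e / ((y x).length + 3 * P x + N x + 1)] (c x w))
      (e % ((y x).length + 3 * P x + N x + 1)), fun e => ?_,
      tcons_complete tm.m tm.k₀ tm.k₁ q0 ein.symm _ _ _ _ _ le_rfl (c x w) w hw rfl (hc2 x w)
        (hc3 x w) (by rw [hrun x w hw, hw'])⟩
    obtain ⟨g1, g2⟩ := good_run tm.m G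
      (fun l => (Set.subset_iUnion (fun l => pushes (tm.m l)) l).trans Set.subset_union_left)
      (c x w) (by
        rintro _ ⟨⟩
        exact ⟨⟨_, stmts₁_self⟩,
          (Set.subset_iUnion (fun l => pushes (tm.m l)) _).trans Set.subset_union_left⟩)
      (fun k z hz => by
        by_cases hk : k = tm.k₀
        · subst hk; exact Or.inr ⟨z, rfl⟩
        · rw [hc2 x w k hk] at hz; simp at hz)
      (e / ((y x).length + 3 * P x + N x + 1))
    rw [Finset.mem_toList, Set.Finite.mem_toFinset]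
    exact ⟨g1, fun k z hz => g2 k z (List.mem_of_mem_head? hz),
      fun k z hz => g2 k z (List.mem_of_getElem? hz)⟩
  · rintro ⟨A, _, hA⟩
    obtain ⟨w, hw, e⟩ := tcons_sound tm.m tm.k₀ tm.k₁ q0 ein.symm _ _ _ _ _ le_rfl (c x)
      (fun _ => rfl) (hc2 x) (hc3 x) A hA
    rw [hrun x w hw] at e
    exact ⟨w, hw, by simpa using e⟩

theorem cell_inj {q c a c' a' : ℕ} (ha : a < q) (ha' : a' < q) (h : c * q + a = c' * q + a') :
    c = c' ∧ a = a' := by
  have h1 := (Nat.div_mod_unique (a := c * q + a) (b := q) (c := a) (d := c) (by omega)).2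
    ⟨by ring, ha⟩
  have h2 := (Nat.div_mod_unique (a := c * q + a) (b := q) (c := a') (d := c') (by omega)).2
    ⟨by rw [h]; ring, ha'⟩
  omega

theorem cell_lt (F : List (ℕ × ℕ × ℕ × ℕ)) (f : ℕ × ℕ × ℕ × ℕ) (hf : f ∈ F) :
    f.1 < (F.map fun f => f.1 + f.2.2.1).sum + 1 ∧
      f.2.2.1 < (F.map fun f => f.1 + f.2.2.1).sum + 1 := by
  have := List.single_le_sum (l := F.map fun f => f.1 + f.2.2.1) (fun _ _ => Nat.zero_le _) _
    (List.mem_map_of_mem hf)
  omega

/-- **Cook-Levin**: satisfiability of formulas in conjunctive normal form is hard for `NP`. -/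
theorem sat_hard (L : List Bool → Bool) (hL : L ∈ N68a2faeb.NP) :
    ∃ f : List Bool → List (List (ℕ × Bool)), PT f ∧
      ∀ x, L x = true ↔ ∃ v : ℕ → Bool, ∀ c ∈ f x, ∃ l ∈ c, v l.1 = l.2 := by
  classical
  obtain ⟨q, F, hF, hq, h⟩ := csp_hard L hL
  refine ⟨fun x => ((List.range (((F x).map fun f => f.1 + f.2.2.1).sum + 1)).map fun c =>
      (List.range q).map fun a => (c * q + a, true)) ++
      (F x).map fun f => [(f.1 * q + f.2.1, false), (f.2.2.1 * q + f.2.2.2, false)],
    by fun_prop, fun x => (h x).trans ?_⟩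
  simp only [List.forall_mem_append, List.forall_mem_map, List.mem_range]
  constructor
  · rintro ⟨a, ha, h1⟩
    refine ⟨fun v => decide (∃ c, v = c * q + a c), fun c _ => ?_, fun f hf => ?_⟩
    · exact ⟨_, List.mem_map.2 ⟨a c, List.mem_range.2 (ha c), rfl⟩, decide_eq_true ⟨c, rfl⟩⟩
    · by_contra h2
      simp only [List.mem_cons, List.not_mem_nil, or_false, exists_eq_or_imp, exists_eq_left,
        decide_eq_false_iff_not, not_or, not_not] at h2
      obtain ⟨⟨c, hc⟩, c', hc'⟩ := h2
      obtain ⟨rfl, e1⟩ := cell_inj (hq x f hf).1 (ha c) hc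
      obtain ⟨rfl, e2⟩ := cell_inj (hq x f hf).2 (ha c') hc'
      exact h1 f hf ⟨e1.symm, e2.symm⟩
  · rintro ⟨v, h1, h2⟩
    have h3 : ∀ c, ∃ a < q, c < ((F x).map fun f => f.1 + f.2.2.1).sum + 1 →
        v (c * q + a) = true := by
      intro c
      by_cases hc : c < ((F x).map fun f => f.1 + f.2.2.1).sum + 1
      · obtain ⟨l, hl, e⟩ := h1 c hc
        obtain ⟨a, ha, rfl⟩ := List.mem_map.1 hl
        exact ⟨a, List.mem_range.1 ha, fun _ => e⟩
      · obtain ⟨l, hl, e⟩ := h1 0 (by omega)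
        obtain ⟨a, ha, rfl⟩ := List.mem_map.1 hl
        exact ⟨a, List.mem_range.1 ha, fun h => absurd h hc⟩
    choose a ha e using h3
    refine ⟨a, ha, fun f hf ⟨e1, e2⟩ => ?_⟩
    have b1 := e _ (cell_lt _ f hf).1
    have b2 := e _ (cell_lt _ f hf).2
    have := h2 f hf
    simp only [List.mem_cons, List.not_mem_nil, or_false, exists_eq_or_imp, exists_eq_left,
      ← e1, ← e2, b1, b2] at this
    simp at this

/-- Exact hitting set (each list contains exactly one chosen entry, counted with multiplicity) is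
hard for `NP`. -/
theorem xhit_hard (L : List Bool → Bool) (hL : L ∈ N68a2faeb.NP) :
    ∃ f : List Bool → List (List ℕ), PT f ∧
      ∀ x, L x = true ↔ ∃ v : ℕ → Bool, ∀ e ∈ f x, e.countP v = 1 := by
  classical
  obtain ⟨q, F, hF, hq, h⟩ := csp_hard L hL
  let n : List Bool → ℕ := fun x => ((F x).map fun f => f.1 + f.2.2.1).sum + 1
  let g : List Bool → ℕ → ℕ × ℕ × ℕ × ℕ := fun x i => (F x).getD i (0, 0, 0, 0)
  refine ⟨fun x => ((List.range (n x)).map fun c => (List.range q).map fun a => 2 * (c * q + a)) ++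
      (List.range (F x).length).map fun i => [2 * ((g x i).1 * q + (g x i).2.1),
        2 * ((g x i).2.2.1 * q + (g x i).2.2.2), 2 * i + 1],
    by fun_prop, fun x => (h x).trans ?_⟩
  simp only [List.forall_mem_append, List.forall_mem_map, List.mem_range]
  have hg : ∀ i < (F x).length, g x i ∈ F x := fun i hi => by
    simp only [g, List.getD_eq_getElem _ _ hi]; exact List.getElem_mem _
  constructor
  · rintro ⟨a, ha, h1⟩
    let v : ℕ → Bool := fun u => decide ((∃ c, u = 2 * (c * q + a c)) ∨ ∃ i, u = 2 * i + 1 ∧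
      a (g x i).1 ≠ (g x i).2.1 ∧ a (g x i).2.2.1 ≠ (g x i).2.2.2)
    have v1 : ∀ c b, b < q → v (2 * (c * q + b)) = decide (a c = b) := by
      intro c b hb
      refine decide_eq_decide.2 ⟨?_, fun e => Or.inl ⟨c, by rw [e]⟩⟩
      rintro (⟨c', hc⟩ | ⟨i, hi, _⟩)
      · obtain ⟨rfl, e⟩ := cell_inj hb (ha c') (by omega : c * q + b = c' * q + a c')
        exact e.symm
      · omega
    have v2 : ∀ i, v (2 * i + 1) =
        decide (a (g x i).1 ≠ (g x i).2.1 ∧ a (g x i).2.2.1 ≠ (g x i).2.2.2) := by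
      intro i
      refine decide_eq_decide.2 ⟨?_, fun e => Or.inr ⟨i, rfl, e⟩⟩
      rintro (⟨c', hc⟩ | ⟨j, hj, e⟩)
      · omega
      · obtain rfl : i = j := by omega
        exact e
    refine ⟨v, fun c _ => ?_, fun i hi => ?_⟩
    · rw [List.countP_map, List.countP_congr (q := fun b => b == a c) (by
        intro b hb
        rw [Function.comp_apply, v1 c b (List.mem_range.1 hb), decide_eq_true_eq, beq_iff_eq]
        exact eq_comm)]
      exact List.count_eq_one_of_mem List.nodup_range (List.mem_range.2 (ha c))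
    · have := h1 _ (hg i hi)
      simp only [List.countP_cons, List.countP_nil, v1 _ _ (hq x _ (hg i hi)).1,
        v1 _ _ (hq x _ (hg i hi)).2, v2, decide_eq_true_eq]
      grind
  · rintro ⟨v, h1, h2⟩
    have h3 : ∀ c, ∃ a < q, c < n x → v (2 * (c * q + a)) = true := by
      have h4 : ∀ c < n x, ∃ a < q, v (2 * (c * q + a)) = true := fun c hc => by
        obtain ⟨l, hl, e⟩ := List.countP_pos_iff.1 ((h1 c hc).symm ▸ Nat.one_pos)
        obtain ⟨a, ha, rfl⟩ := List.mem_map.1 hl
        exact ⟨a, List.mem_range.1 ha, e⟩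
      intro c
      by_cases hc : c < n x
      · obtain ⟨a, ha, e⟩ := h4 c hc
        exact ⟨a, ha, fun _ => e⟩
      · obtain ⟨a, ha, e⟩ := h4 0 (Nat.succ_pos _)
        exact ⟨a, ha, fun h => absurd h hc⟩
    choose a ha e using h3
    refine ⟨a, ha, fun f hf ⟨e1, e2⟩ => ?_⟩
    have b1 := e _ (cell_lt _ f hf).1
    have b2 := e _ (cell_lt _ f hf).2
    obtain ⟨i, hi, rfl⟩ := List.getElem_of_mem hf
    have := h2 i hi
    simp only [g, List.getD_eq_getElem _ _ hi, List.countP_cons, ← e1, ← e2, b1, b2] at this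
    simp at this

end Pool.Agent.Lib.helper77
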