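import Mathlib

/-! Single-instruction semantics of `TM2` machines and the tableau of a computation. -/

namespace Pool.Agent.Lib.helper77

open Turing Turing.TM2 Function

variable {K : Type} [DecidableEq K] {Γ : K → Type} {Λ σ : Type}

/-- One optional symbol for each stack. -/
abbrev Col (Γ : K → Type) := ∀ k, Option (Γ k)

/-- Control state: the remaining statement and the internal state. -/
abbrev Ctl (Γ : K → Type) (Λ σ : Type) := Option (Stmt Γ Λ σ) × σ

/-- Next control state. -/
def nxt (M : Λ → Stmt Γ Λ σ) : Ctl Γ Λ σ → Col Γ → Ctl Γ Λ σ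
  | (none, v), _ => (none, v)
  | (some (.push _ _ q), v), _ => (some q, v)
  | (some (.peek k f q), v), T => (some q, f v (T k))
  | (some (.pop k f q), v), T => (some q, f v (T k))
  | (some (.load a q), v), _ => (some q, a v)
  | (some (.branch f q₁ q₂), v), _ => (some (cond (f v) q₁ q₂), v)
  | (some (.goto f), v), _ => (some (M (f v)), v)
  | (some .halt, v), _ => (none, v)

/-- Action on the stacks: keep, pop, or push a symbol. -/
def act : Ctl Γ Λ σ → ∀ k, Option (Option (Γ k))
  | (some (.push k f _), v) => update (fun _ => none) k (some (some (f v)))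
  | (some (.pop k _ _), _) => update (fun _ => none) k (some none)
  | _ => fun _ => none

/-- Effect of an action. -/
def app {α : Type} : Option (Option α) → List α → List α
  | none, l => l
  | some none, l => l.tail
  | some (some x), l => x :: l

/-- Configurations. -/
abbrev MC (Γ : K → Type) (Λ σ : Type) := Ctl Γ Λ σ × ∀ k, List (Γ k)

/-- One instruction. -/
def mstep (M : Λ → Stmt Γ Λ σ) (c : MC Γ Λ σ) : MC Γ Λ σ :=
  (nxt M c.1 fun k => (c.2 k).head?, fun k => app (act c.1 k) (c.2 k))

/-- Configuration attached to a `TM2` configuration. -/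
def conv (M : Λ → Stmt Γ Λ σ) (c : Cfg Γ Λ σ) : MC Γ Λ σ := ((c.l.map M, c.var), c.stk)

/-- Number of instructions on a longest branch. -/
def depth : Stmt Γ Λ σ → ℕ
  | .push _ _ q => depth q + 1
  | .peek _ _ q => depth q + 1
  | .pop _ _ q => depth q + 1
  | .load _ q => depth q + 1
  | .branch _ q₁ q₂ => depth q₁ + depth q₂ + 1
  | .goto _ => 1
  | .halt => 1

variable (M : Λ → Stmt Γ Λ σ)

theorem app_update (S : ∀ k, List (Γ k)) (k : K) (o : Option (Option (Γ k))) :
    (fun k' => app (update (fun k' => (none : Option (Option (Γ k')))) k o k') (S k')) =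
      update S k (app o (S k)) := by
  funext k'
  by_cases h : k' = k
  · subst h; simp
  · simp [update_of_ne h, app]

theorem sim_stmt (q : Stmt Γ Λ σ) : ∀ (v : σ) (S : ∀ k, List (Γ k)),
    ∃ d ≤ depth q, (mstep M)^[d] ((some q, v), S) = conv M (stepAux q v S) := by
  induction q with
  | push k f q ih =>
    intro v S
    obtain ⟨d, hd, e⟩ := ih v (update S k (f v :: S k))
    refine ⟨d + 1, by simp [depth, hd], ?_⟩
    rw [iterate_succ_apply, stepAux, ← e]
    simp only [mstep, nxt, act, app_update]; rfl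
  | peek k f q ih =>
    intro v S
    obtain ⟨d, hd, e⟩ := ih (f v (S k).head?) S
    exact ⟨d + 1, by simp [depth, hd], by rw [iterate_succ_apply, stepAux, ← e]; rfl⟩
  | pop k f q ih =>
    intro v S
    obtain ⟨d, hd, e⟩ := ih (f v (S k).head?) (update S k (S k).tail)
    refine ⟨d + 1, by simp [depth, hd], ?_⟩
    rw [iterate_succ_apply, stepAux, ← e]
    simp only [mstep, nxt, act, app_update]; rfl
  | load a q ih =>
    intro v S
    obtain ⟨d, hd, e⟩ := ih (a v) S
    exact ⟨d + 1, by simp [depth, hd], by rw [iterate_succ_apply, stepAux, ← e]; rfl⟩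
  | branch f q₁ q₂ ih₁ ih₂ =>
    intro v S
    obtain ⟨d₁, hd₁, e₁⟩ := ih₁ v S
    obtain ⟨d₂, hd₂, e₂⟩ := ih₂ v S
    cases h : f v
    · refine ⟨d₂ + 1, by simp only [depth]; omega, ?_⟩
      rw [iterate_succ_apply, stepAux, h, cond_false, ← e₂]
      simp only [mstep, nxt, h, cond_false]; rfl
    · refine ⟨d₁ + 1, by simp only [depth]; omega, ?_⟩
      rw [iterate_succ_apply, stepAux, h, cond_true, ← e₁]
      simp only [mstep, nxt, h, cond_true]; rfl
  | goto f => exact fun v S => ⟨1, le_rfl, rfl⟩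
  | halt => exact fun v S => ⟨1, le_rfl, rfl⟩

theorem sim_run (D : ℕ) (hD : ∀ l, depth (M l) ≤ D) (n : ℕ) : ∀ c c' : Cfg Γ Λ σ,
    (flip bind (step M))^[n] (some c) = some c' →
      ∃ d ≤ D * n, (mstep M)^[d] (conv M c) = conv M c' := by
  induction n with
  | zero =>
    intro c c' h
    obtain rfl : c = c' := by simpa using h
    exact ⟨0, le_rfl, rfl⟩
  | succ n ih =>
    rintro ⟨l, v, S⟩ c' h
    rw [iterate_succ_apply] at h
    cases l with
    | none =>
      have : ∀ n, (flip bind (step M))^[n] none = none := fun n => iterate_fixed rfl n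
      exact absurd ((this n).symm.trans h) (by simp)
    | some l =>
      obtain ⟨d, hd, e⟩ := ih _ c' h
      obtain ⟨d', hd', e'⟩ := sim_stmt M (M l) v S
      refine ⟨d + d', by have := hD l; rw [Nat.mul_succ]; omega, ?_⟩
      rw [iterate_add_apply, ← e, ← e']; rfl

theorem run_halt {c c' : MC Γ Λ σ} {d N : ℕ} (h : (mstep M)^[d] c = c') (h' : c'.1.1 = none)
    (hN : d ≤ N) : (mstep M)^[N] c = c' := by
  obtain ⟨e, rfl⟩ := Nat.exists_eq_add_of_le' hN
  rw [iterate_add_apply, h]
  obtain ⟨⟨q, v⟩, S⟩ := c'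
  obtain rfl : q = none := h'
  exact iterate_fixed rfl e

theorem length_run (c : MC Γ Λ σ) (i : ℕ) (k : K) :
    (((mstep M)^[i] c).2 k).length ≤ (c.2 k).length + i := by
  induction i with
  | zero => simp
  | succ i ih =>
    rw [iterate_succ_apply']
    generalize (mstep M)^[i] c = c' at ih ⊢
    simp only [mstep]
    rcases act c'.1 k with _ | _ | x <;> simp [app] <;> omega

/-- Symbols which a statement may push. -/
def pushes : Stmt Γ Λ σ → Set (Σ k, Γ k)
  | .push k f q => Set.range (fun v => ⟨k, f v⟩) ∪ pushes q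
  | .peek _ _ q => pushes q
  | .pop _ _ q => pushes q
  | .load _ q => pushes q
  | .branch _ q₁ q₂ => pushes q₁ ∪ pushes q₂
  | .goto _ => ∅
  | .halt => ∅

omit [DecidableEq K] in
theorem pushes_finite [Finite σ] (q : Stmt Γ Λ σ) : (pushes q).Finite := by
  induction q with
  | push k f q ih => exact (Set.finite_range _).union ih
  | branch f q₁ q₂ ih₁ ih₂ => exact ih₁.union ih₂
  | goto f => exact Set.finite_empty
  | halt => exact Set.finite_empty
  | _ => assumption

/-- The statement is a part of the program and pushes only symbols from `G`. -/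
def GoodS (G : Set (Σ k, Γ k)) (q : Option (Stmt Γ Λ σ)) : Prop :=
  ∀ q' ∈ q, (∃ l, q' ∈ stmts₁ (M l)) ∧ pushes q' ⊆ G

/-- All symbols are from `G`. -/
def GoodC (G : Set (Σ k, Γ k)) (c : Col Γ) : Prop := ∀ k, ∀ x ∈ c k, (⟨k, x⟩ : Σ k, Γ k) ∈ G

theorem good_run (G : Set (Σ k, Γ k)) (hG : ∀ l, pushes (M l) ⊆ G) (c : MC Γ Λ σ)
    (h1 : GoodS M G c.1.1) (h2 : ∀ k, ∀ x ∈ c.2 k, (⟨k, x⟩ : Σ k, Γ k) ∈ G) (i : ℕ) :
    GoodS M G ((mstep M)^[i] c).1.1 ∧
      ∀ k, ∀ x ∈ ((mstep M)^[i] c).2 k, (⟨k, x⟩ : Σ k, Γ k) ∈ G := by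
  induction i with
  | zero => exact ⟨h1, h2⟩
  | succ i ih =>
    rw [iterate_succ_apply']
    generalize (mstep M)^[i] c = c' at ih ⊢
    obtain ⟨⟨q, v⟩, S⟩ := c'
    obtain ⟨h1, h2⟩ := ih
    cases q with
    | none => exact ⟨h1, h2⟩
    | some q =>
      obtain ⟨⟨l, hl⟩, hp⟩ := h1 q rfl
      have key : ∀ q', q' ∈ stmts₁ q → pushes q' ⊆ pushes q → GoodS M G (some q') := by
        rintro q' h3 h4 _ ⟨⟩
        exact ⟨⟨l, stmts₁_trans hl h3⟩, h4.trans hp⟩
      cases q with
      | push k f q =>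
        refine ⟨key q (by simp [stmts₁, stmts₁_self]) Set.subset_union_right, ?_⟩
        simp only [mstep, act, app_update]
        intro k' x hx
        by_cases h : k' = k
        · subst h
          rw [update_self] at hx
          rcases List.mem_cons.1 hx with rfl | hx
          · exact hp (Or.inl ⟨v, rfl⟩)
          · exact h2 _ _ hx
        · rw [update_of_ne h] at hx
          exact h2 _ _ hx
      | peek k f q => exact ⟨key q (by simp [stmts₁, stmts₁_self]) subset_rfl, h2⟩
      | pop k f q =>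
        refine ⟨key q (by simp [stmts₁, stmts₁_self]) subset_rfl, ?_⟩
        simp only [mstep, act, app_update]
        intro k' x hx
        by_cases h : k' = k
        · subst h
          rw [update_self] at hx
          exact h2 _ _ (List.mem_of_mem_tail hx)
        · rw [update_of_ne h] at hx
          exact h2 _ _ hx
      | load a q => exact ⟨key q (by simp [stmts₁, stmts₁_self]) subset_rfl, h2⟩
      | branch f q₁ q₂ =>
        refine ⟨?_, h2⟩
        simp only [mstep, nxt]
        cases f v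
        · exact key q₂ (by simp [stmts₁, stmts₁_self]) Set.subset_union_right
        · exact key q₁ (by simp [stmts₁, stmts₁_self]) Set.subset_union_left
      | goto f =>
        refine ⟨?_, h2⟩
        rintro _ ⟨⟩
        exact ⟨⟨_, stmts₁_self⟩, hG _⟩
      | halt => exact ⟨fun _ h => by simp [mstep, nxt] at h, h2⟩

/-- Contents of a cell of the tableau: control state, stack tops, and one symbol of each stack. -/
abbrev Dm (Γ : K → Type) (Λ σ : Type) := Ctl Γ Λ σ × Col Γ × Col Γ

omit [DecidableEq K] in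
theorem good_finite [Finite K] [Finite Λ] [Finite σ] {G : Set (Σ k, Γ k)} (hG : G.Finite) :
    {d : Dm Γ Λ σ | GoodS M G d.1.1 ∧ GoodC G d.2.1 ∧ GoodC G d.2.2}.Finite := by
  have h1 : {q | GoodS M G q}.Finite := by
    refine (((Set.finite_iUnion fun l => (stmts₁ (M l)).finite_toSet).image some).insert
      none).subset fun q hq => ?_
    cases q with
    | none => exact Or.inl rfl
    | some q =>
      obtain ⟨l, hl⟩ := (hq q rfl).1
      exact Or.inr ⟨q, Set.mem_iUnion.2 ⟨l, hl⟩, rfl⟩
  have h2 : {c : Col Γ | GoodC G c}.Finite := by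
    have h3 : ∀ k, {o : Option (Γ k) | ∀ x ∈ o, (⟨k, x⟩ : Σ k, Γ k) ∈ G}.Finite := by
      intro k
      refine (((hG.preimage (sigma_mk_injective (i := k)).injOn).image some).insert
        none).subset fun o ho => ?_
      cases o with
      | none => exact Or.inl rfl
      | some x => exact Or.inr ⟨x, ho x rfl, rfl⟩
    exact Set.Finite.pi' h3
  exact ((h1.prod (Set.finite_univ (α := σ))).prod (h2.prod h2)).subset
    fun d hd => ⟨⟨hd.1, trivial⟩, hd.2⟩

/-- The cell in column `j` of the row describing `c`. -/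
def cellOf (c : MC Γ Λ σ) (j : ℕ) : Dm Γ Λ σ :=
  (c.1, fun k => (c.2 k).head?, fun k => (c.2 k)[j]?)

/-- The local rules relating the rows of a tableau. -/
def rule : ℕ → Dm Γ Λ σ → Dm Γ Λ σ → Prop
  | 0, x, y => x.1 = y.1 ∧ x.2.1 = y.2.1
  | 1, x, _ => x.2.1 = x.2.2
  | 2, x, y => y.1 = nxt M x.1 x.2.1 ∧ ∀ k, act x.1 k = none → y.2.2 k = x.2.2 k
  | 3, x, y => ∀ k, act x.1 k = some none → y.2.2 k = x.2.2 k
  | 4, x, y => ∀ k γ, act x.1 k = some (some γ) → y.2.2 k = x.2.2 k
  | 5, x, y => ∀ k γ, act x.1 k = some (some γ) → y.2.2 k = some γ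
  | _, x, _ => ∀ k, x.2.2 k = none

/-- A tableau with rows `0, …, N` and columns `0, …, H`. -/
structure Tab (A : ℕ → ℕ → Dm Γ Λ σ) (N H : ℕ) : Prop where
  r0 : ∀ i < N + 1, ∀ j < H, rule M 0 (A i j) (A i (j + 1))
  r1 : ∀ i < N + 1, rule M 1 (A i 0) (A i 0)
  r2 : ∀ i < N, ∀ j < H + 1, rule M 2 (A i j) (A (i + 1) j)
  r3 : ∀ i < N, ∀ j < H, rule M 3 (A i (j + 1)) (A (i + 1) j)
  r4 : ∀ i < N, ∀ j < H, rule M 4 (A i j) (A (i + 1) (j + 1))
  r5 : ∀ i < N, rule M 5 (A i 0) (A (i + 1) 0)
  r6 : ∀ i < N + 1, rule M 6 (A i H) (A i H)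

theorem tab_complete (c : MC Γ Λ σ) (N H : ℕ) (h : ∀ k, (c.2 k).length + N ≤ H) :
    Tab M (fun i j => cellOf ((mstep M)^[i] c) j) N H := by
  refine ⟨fun i _ j _ => ⟨rfl, rfl⟩, fun i _ => ?_, fun i _ j _ => ?_, fun i _ j _ => ?_,
    fun i _ j _ => ?_, fun i _ => ?_, fun i hi => ?_⟩
  · simp [rule, cellOf, List.head?_eq_getElem?]
  · rw [iterate_succ_apply']
    exact ⟨rfl, fun k hk => by simp only [cellOf] at hk ⊢; simp [mstep, hk, app]⟩
  · rw [iterate_succ_apply']
    exact fun k hk => by simp only [cellOf] at hk ⊢; simp [mstep, hk, app]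
  · rw [iterate_succ_apply']
    exact fun k γ hk => by simp only [cellOf] at hk ⊢; simp [mstep, hk, app]
  · rw [iterate_succ_apply']
    exact fun k γ hk => by simp only [cellOf] at hk ⊢; simp [mstep, hk, app]
  · intro k
    have := length_run M c i k
    have := h k
    exact List.getElem?_eq_none (by omega)

theorem tab_sound {A : ℕ → ℕ → Dm Γ Λ σ} {N H : ℕ} (hA : Tab M A N H) (c : MC Γ Λ σ)
    (h : ∀ k, (c.2 k).length + N ≤ H)
    (h0 : ∀ j < H + 1, (A 0 j).1 = c.1 ∧ ∀ k, (A 0 j).2.2 k = (c.2 k)[j]?) :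
    ∀ i < N + 1, ∀ j < H + 1, (A i j).1 = ((mstep M)^[i] c).1 ∧
      ∀ k, (A i j).2.2 k = (((mstep M)^[i] c).2 k)[j]? := by
  intro i
  induction i with
  | zero => exact fun _ => h0
  | succ i ih =>
    intro hi
    have ih := ih (by omega)
    have hl := length_run M c (i + 1)
    rw [iterate_succ_apply'] at hl ⊢
    generalize (mstep M)^[i] c = c' at ih hl ⊢
    have ht : ∀ j < H + 1, (A i j).2.1 = fun k => (c'.2 k).head? := by
      intro j
      induction j with
      | zero =>
        intro _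
        funext k
        rw [hA.r1 i (by omega), (ih 0 (by omega)).2, List.head?_eq_getElem?]
      | succ j ihj => intro hj; rw [← (hA.r0 i (by omega) j (by omega)).2, ihj (by omega)]
    intro j hj
    obtain ⟨e1, e2⟩ := hA.r2 i (by omega) j hj
    rw [ht j hj, (ih j hj).1] at e1
    refine ⟨e1, fun k => ?_⟩
    rcases ha : act c'.1 k with _ | _ | γ
    · rw [e2 k (by rw [(ih j hj).1, ha]), (ih j hj).2]
      simp [mstep, ha, app]
    · rcases Nat.lt_or_ge j H with h1 | h1
      · rw [hA.r3 i (by omega) j h1 k (by rw [(ih (j + 1) (by omega)).1, ha]),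
          (ih (j + 1) (by omega)).2]
        simp [mstep, ha, app]
      · obtain rfl : j = H := by omega
        have := hl k
        have := h k
        rw [hA.r6 (i + 1) hi k, List.getElem?_eq_none (by omega)]
    · cases j with
      | zero =>
        rw [hA.r5 i (by omega) k γ (by rw [(ih 0 hj).1, ha])]
        simp [mstep, ha, app]
      | succ j =>
        rw [hA.r4 i (by omega) j (by omega) k γ (by rw [(ih j (by omega)).1, ha]),
          (ih j (by omega)).2]
        simp [mstep, ha, app]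

end Pool.Agent.Lib.helper77
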