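import Pool.Agent.Lib.helper77.CookLevin

/-! Subset sum and the quadratic congruence problem of Manders and Adleman are hard for `NP`. -/

namespace Pool.Agent.Lib.helper77

open Pool.Agent.Lib.helper21 Enc Function Finset

variable {α : Type} [Enc α]

/-- The number with digits `d e`, for `e` running through `l`, in base `B`. -/
def horner {E : Type} (B : ℕ) (d : E → ℕ) : List E → ℕ
  | [] => 0
  | e :: l => d e + B * horner B d l

theorem horner_inj {E : Type} {B : ℕ} {d d' : E → ℕ} (l : List E) (h : ∀ e ∈ l, d e < B ∧ d' e < B)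
    (e : horner B d l = horner B d' l) : ∀ e ∈ l, d e = d' e := by
  induction l with
  | nil => simp
  | cons a l ih =>
    obtain ⟨h1, h2⟩ := h a (by simp)
    have e1 := (Nat.div_mod_unique (a := horner B d (a :: l)) (by omega : 0 < B)).2 ⟨rfl, h1⟩
    have e2 := (Nat.div_mod_unique (a := horner B d (a :: l)) (by omega : 0 < B)).2 ⟨e.symm, h2⟩
    exact List.forall_mem_cons.2 ⟨by omega, ih (fun e he => h e (by simp [he])) (by omega)⟩

theorem horner_congr {E : Type} {B : ℕ} {d d' : E → ℕ} (l : List E) (h : ∀ e ∈ l, d e = d' e) :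
    horner B d l = horner B d' l := by
  induction l with
  | nil => rfl
  | cons a l ih => rw [horner, horner, h a (by simp), ih fun e he => h e (by simp [he])]

theorem sum_horner {E : Type} (B n : ℕ) (z : ℕ → Bool) (d : ℕ → E → ℕ) (l : List E) :
    ∑ v ∈ range n, (if z v then horner B (d v) l else 0) =
      horner B (fun e => ∑ v ∈ range n, if z v then d v e else 0) l := by
  induction l with
  | nil => simp [horner]
  | cons a l ih =>
    simp only [horner]
    rw [← ih, mul_sum, ← sum_add_distrib]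
    exact sum_congr rfl fun v _ => by split_ifs <;> simp

theorem sum_count (n : ℕ) (z : ℕ → Bool) (e : List ℕ) (h : ∀ a ∈ e, a < n) :
    ∑ v ∈ range n, (if z v then e.count v else 0) = e.countP z := by
  induction e with
  | nil => simp
  | cons a e ih =>
    rw [List.countP_cons, ← ih fun b hb => h b (by simp [hb])]
    have : ∀ v, (if z v then (a :: e).count v else 0) =
        (if z v then e.count v else 0) + if a = v then (if z a then 1 else 0) else 0 := by
      intro v
      rw [List.count_cons]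
      by_cases h1 : a = v
      · subst h1; split_ifs <;> simp_all
      · simp [h1]
    simp only [this, sum_add_distrib, sum_ite_eq, mem_range, h a (by simp), if_true]

theorem PT.horner {E : Type} [Enc E] {B : α → ℕ} {d : α → E → ℕ} {l : α → List E} (hB : PT B)
    (hd : PT fun p : α × E => d p.1 p.2) (hl : PT l) :
    PT fun a => ((horner (B a) (d a) (l a) : ℕ) : ℤ) := by
  have h1 : PT fun p : α × ℤ × E => (d p.1 p.2.2 : ℤ) :=
    (hd.comp (g := fun p : α × ℤ × E => (p.1, p.2.2)) (by fun_prop)).natCast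
  have h2 : PT fun p : α × E => sz (d p.1 p.2 : ℤ) + sz (B p.1 : ℤ) := by fun_prop
  refine (PT.foldl_add (f := fun a (s : ℤ) e => (d a e : ℤ) + B a * s) (by fun_prop) hl.reverse
    (PT.const 0) _ h2.bdNat fun a s e => ?_).of_eq fun a => ?_
  · have := sz_int_add (d a e) (B a * s)
    have := sz_int_mul (B a) s
    dsimp only; omega
  · rw [List.foldl_reverse]
    induction l a with
    | nil => rfl
    | cons e l ih => rw [List.foldr_cons, ih, helper77.horner]; push_cast; rfl

/-- Subset sum is hard for `NP`: the number of items is given in unary, the items and the target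
in binary. -/
theorem ss_hard (L : List Bool → Bool) (hL : L ∈ N68a2faeb.NP) :
    ∃ (n : List Bool → ℕ) (c : List Bool → ℕ → ℕ) (τ : List Bool → ℕ), PT n ∧
      (PT fun p : List Bool × ℕ => (c p.1 p.2 : ℤ)) ∧ (PT fun x => (τ x : ℤ)) ∧
      ∀ x, L x = true ↔ ∃ z : ℕ → Bool, ∑ j ∈ range (n x), (if z j then c x j else 0) = τ x := by
  obtain ⟨f, hf, h⟩ := xhit_hard L hL
  refine ⟨fun x => (f x).flatten.sum + 1,
    fun x v => horner ((f x).flatten.length + 2) (fun e => e.count v) (f x),
    fun x => horner ((f x).flatten.length + 2) (fun _ => 1) (f x), by fun_prop, ?_,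
    PT.horner (by fun_prop) (by fun_prop) hf, fun x => (h x).trans (exists_congr fun z => ?_)⟩
  · refine PT.horner (by fun_prop) (PT.of_eq (f := fun p : (List Bool × ℕ) × List ℕ =>
      (p.2.filter fun a => decide (a = p.1.2)).length) (by fun_prop) fun p => ?_) (by fun_prop)
    rw [List.count_eq_countP, List.countP_eq_length_filter]; rfl
  · rw [sum_horner, horner_congr (d' := fun e => e.countP z) _ fun e he =>
      sum_count _ z e fun a ha => Nat.lt_succ_of_le (List.single_le_sum (fun _ _ => Nat.zero_le _)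
        a (List.mem_flatten.2 ⟨e, he, ha⟩))]
    refine ⟨horner_congr _, horner_inj _ fun e he => ?_⟩
    have := List.countP_le_length (p := z) (l := e)
    have := (List.sublist_flatten_of_mem he).length_le
    omega

theorem sum_map_range (n : ℕ) (f : ℕ → ℕ) :
    ((List.range n).map fun j => (f j : ℤ)).sum = ((∑ j ∈ range n, f j : ℕ) : ℤ) := by
  induction n with
  | zero => rfl
  | succ n ih => rw [List.range_succ, sum_range_succ]; simp [ih]

theorem prod_map_range (n : ℕ) (f : ℕ → ℕ) :
    ((List.range n).map fun j => (f j : ℤ)).prod = ((∏ j ∈ range n, f j : ℕ) : ℤ) := by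
  induction n with
  | zero => rfl
  | succ n ih => rw [List.range_succ, prod_range_succ]; simp [ih]

theorem PT.sumRange {n : α → ℕ} {f : α → ℕ → ℕ} (hn : PT n)
    (hf : PT fun p : α × ℕ => (f p.1 p.2 : ℤ)) :
    PT fun a => ((∑ j ∈ range (n a), f a j : ℕ) : ℤ) :=
  (PT.intSum (hn.range.map hf)).of_eq fun _ => sum_map_range _ _

theorem PT.prodRange {n : α → ℕ} {f : α → ℕ → ℕ} (hn : PT n)
    (hf : PT fun p : α × ℕ => (f p.1 p.2 : ℤ)) :
    PT fun a => ((∏ j ∈ range (n a), f a j : ℕ) : ℤ) :=
  (PT.intProd (hn.range.map hf)).of_eq fun _ => prod_map_range _ _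

/-- Primality test by trial multiplication. -/
def isPr (m : ℕ) : Bool := decide (2 ≤ m) &&
  (List.range m).all fun d => (List.range m).all fun k => !decide (d * k = m)

theorem isPr_iff (m : ℕ) : isPr m = true ↔ m.Prime := by
  simp only [isPr, Bool.and_eq_true, decide_eq_true_eq, List.all_eq_true, List.mem_range,
    Bool.not_eq_eq_eq_not, Bool.not_true, decide_eq_false_iff_not]
  constructor
  · rintro ⟨h1, h2⟩
    by_contra h
    obtain ⟨a, b, ha, hb, e⟩ := (Nat.not_prime_iff_exists_mul_eq h1).1 h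
    exact h2 a ha b hb e
  · intro h
    exact ⟨h.two_le, fun d hd k hk e =>
      (Nat.not_prime_iff_exists_mul_eq h.two_le).2 ⟨d, k, hd, hk, e⟩ h⟩

/-- A list of more than `n` primes. -/
def primesFor (n : ℕ) : List ℕ := (List.range ((n + 5) * (n + 5) + 1)).filter isPr

theorem le_length_primesFor (n : ℕ) : n ≤ (primesFor n).length := by
  by_contra hlt
  set s := n + 5 with hs
  have h1 := Chebyshev.two_pow_le_mul_lcmUpto (s * s)
  rw [Nat.lcmUpto_eq_prod_pow_log] at h1
  have h2 : ∏ p ∈ Nat.primesLE (s * s), p ^ p.log (s * s) ≤ (s * s) ^ (Nat.primesLE (s * s)).card :=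
    prod_le_pow_card _ _ _ fun p _ => Nat.pow_log_le_self p (by positivity)
  have h3 : (Nat.primesLE (s * s)).card = (primesFor n).length := by
    rw [Nat.primesLE_eq_filter_range, primesFor, ← List.toFinset_card_of_nodup
      (List.nodup_range.filter _)]
    congr 1
    ext p
    simp [isPr_iff, hs]
  have h4 : s * s + 1 ≤ 2 ^ s := by
    have : ∀ k, (k + 5) * (k + 5) + 1 ≤ 2 ^ (k + 5) := by
      intro k
      induction k with
      | zero => norm_num
      | succ k ih => rw [show k + 1 + 5 = k + 5 + 1 by omega, pow_succ]; nlinarith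
    exact this n
  have h5 : (s * s) ^ (primesFor n).length ≤ (s * s + 1) ^ n :=
    (Nat.pow_le_pow_left (by omega) _).trans (Nat.pow_le_pow_right (by omega) (by omega))
  rw [h3] at h2
  have h6 : 2 ^ (s * s) ≤ (2 ^ s) ^ (n + 1) :=
    calc 2 ^ (s * s) ≤ (s * s + 1) * (s * s + 1) ^ n :=
          h1.trans (Nat.mul_le_mul_left _ (h2.trans h5))
      _ = (s * s + 1) ^ (n + 1) := by ring
      _ ≤ _ := Nat.pow_le_pow_left h4 _
  rw [← pow_mul] at h6
  have := (Nat.pow_le_pow_iff_right (by norm_num)).1 h6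
  nlinarith

/-- The `j`-th prime of the list. -/
def pr (n j : ℕ) : ℕ := (primesFor n).getD j 2

theorem pr_prime (n j : ℕ) : (pr n j).Prime := by
  unfold pr
  rcases Nat.lt_or_ge j (primesFor n).length with h | h
  · rw [List.getD_eq_getElem _ _ h]
    exact (isPr_iff _).1 (List.mem_filter.1 (List.getElem_mem h)).2
  · rw [List.getD_eq_default _ _ h]; exact Nat.prime_two

theorem pr_inj {n i j : ℕ} (hi : i < n) (hj : j < n) (h : pr n i = pr n j) : i = j := by
  have := le_length_primesFor n
  unfold pr at h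
  rw [List.getD_eq_getElem _ _ (by omega), List.getD_eq_getElem _ _ (by omega)] at h
  exact (List.Nodup.getElem_inj_iff (List.nodup_range.filter _)).1 h

/-- The lemma of Manders and Adleman. -/
theorem manders (n N M τ : ℕ) (c p θ : ℕ → ℕ) (K : ℕ) (hp : ∀ j, (p j).Prime)
    (hinj : ∀ i < n, ∀ j < n, p i = p j → i = j) (hN : 0 < N) (hK : K = ∏ j ∈ range n, p j ^ N)
    (hM : M.Coprime K) (hc : ∑ j ∈ range n, c j + τ < M)
    (h1 : ∀ i < n, ∀ j < n, i ≠ j → p i ^ N ∣ θ j) (h2 : ∀ j < n, ¬ p j ∣ θ j)
    (h3 : ∀ j < n, θ j ≡ K * c j [MOD M]) (h4 : ∑ j ∈ range n, θ j < K) :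
    (∃ z : ℕ → Bool, ∑ j ∈ range n, (if z j then c j else 0) = τ) ↔
      ∃ X y z : ℕ, X ≤ K ∧ y ≤ K ∧ z ≤ K ∧ X * X + K * y = (∑ j ∈ range n, θ j) * X ∧
        X = M * z + K * τ % M := by
  have hco : ∀ x : ℤ, (∀ j < n, ((p j ^ N : ℕ) : ℤ) ∣ x) → (K : ℤ) ∣ x := by
    intro x hx
    rw [hK, Nat.cast_prod]
    refine Finset.prod_dvd_of_coprime (fun i hi j hj hij => ?_) fun j hj => hx j (mem_range.1 hj)
    refine Nat.isCoprime_iff_coprime.2 (Nat.Coprime.pow _ _ ((Nat.coprime_primes (hp i) (hp j)).2
      fun e => hij (hinj i (by simpa using hi) j (by simpa using hj) e)))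
  have hsel : ∀ (z : ℕ → Bool) (j : ℕ), j < n → ((p j ^ N : ℕ) : ℤ) ∣
      ((∑ i ∈ range n, if z i then θ i else 0 : ℕ) : ℤ) - (if z j then θ j else 0 : ℕ) := by
    intro z j hj
    rw [← add_sum_erase _ _ (mem_range.2 hj), Nat.cast_add, add_sub_cancel_left,
      Int.natCast_dvd_natCast]
    refine dvd_sum fun i hi => ?_
    split_ifs
    · exact h1 j hj i (mem_range.1 (mem_of_mem_erase hi)) (ne_of_mem_erase hi).symm
    · exact dvd_zero _
  have hle : ∀ (z : ℕ → Bool) (f : ℕ → ℕ), ∑ i ∈ range n, (if z i then f i else 0) ≤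
      ∑ i ∈ range n, f i := fun z f => sum_le_sum fun i _ => by split_ifs <;> simp
  have hmod : ∀ z : ℕ → Bool, ∑ i ∈ range n, (if z i then θ i else 0) ≡
      K * ∑ i ∈ range n, (if z i then c i else 0) [MOD M] := by
    intro z
    rw [mul_sum]
    refine Nat.ModEq.sum fun i hi => ?_
    split_ifs
    · exact h3 i (mem_range.1 hi)
    · rfl
  have hH := hsel fun _ => true
  simp only [if_true] at hH
  generalize hHe : ∑ j ∈ range n, θ j = H at *
  constructor
  · rintro ⟨z, hz⟩
    have e1 := hle z θ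
    have e2 := hmod z
    have e3 := hsel z
    rw [hz] at e2
    rw [hHe] at e1
    generalize ∑ i ∈ range n, (if z i then θ i else 0) = X at *
    obtain ⟨y, hy⟩ : K ∣ X * (H - X) := by
      rw [← Int.natCast_dvd_natCast]
      refine hco _ fun j hj => ?_
      rw [Nat.cast_mul, Nat.cast_sub e1]
      have := e3 j hj
      split_ifs at this
      · exact Dvd.dvd.mul_left (by convert (hH j hj).sub this using 1; ring) _
      · exact Dvd.dvd.mul_right (by simpa using this) _
    refine ⟨X, y, X / M, by omega, ?_, (Nat.div_le_self _ _).trans (by omega), ?_, ?_⟩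
    · have : X * (H - X) ≤ K * K := Nat.mul_le_mul (by omega) (by omega)
      rw [hy] at this
      exact Nat.le_of_mul_le_mul_left this (by omega)
    · rw [← hy, ← Nat.mul_add, Nat.add_sub_cancel' e1, mul_comm]
    · rw [← e2]; exact (Nat.div_add_mod X M).symm
  · rintro ⟨X, y, z, _, _, _, e1, e2⟩
    have hX : X ≤ H := by
      by_contra h
      nlinarith
    let w : ℕ → Bool := fun j => decide (¬ p j ^ N ∣ X)
    have e3 : (K : ℤ) ∣ (X : ℤ) - ((∑ i ∈ range n, if w i then θ i else 0 : ℕ) : ℤ) := by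
      refine hco _ fun j hj => ?_
      have e4 := hsel w j hj
      by_cases hw : p j ^ N ∣ X
      · rw [if_neg (by simp [w, hw])] at e4
        exact (Int.natCast_dvd_natCast.2 hw).sub (by simpa using e4)
      · rw [if_pos (by simp [w, hw])] at e4
        have e5 : p j ^ N ∣ X * (H - X) := by
          rw [Nat.mul_sub, mul_comm X H, ← e1, Nat.add_sub_cancel_left, hK]
          exact (dvd_prod_of_mem _ (mem_range.2 hj)).mul_right _
        have e6 : p j ^ N ∣ H - X := by
          by_cases h5 : p j ∣ X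
          · refine absurd (Nat.Coprime.dvd_of_dvd_mul_right (Nat.Coprime.pow_left N
              (((hp j).coprime_iff_not_dvd).2 fun h6 => h2 j hj ?_)) e5) hw
            have h7 : p j ∣ H := by simpa [Nat.add_sub_cancel' hX] using Nat.dvd_add h5 h6
            have h8 := (Int.natCast_dvd_natCast.2 (dvd_pow_self (p j) hN.ne')).trans (hH j hj)
            have := (Int.natCast_dvd_natCast.2 h7).sub h8
            rwa [sub_sub_cancel, Int.natCast_dvd_natCast] at this
          · exact Nat.Coprime.dvd_of_dvd_mul_left (Nat.Coprime.pow_left N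
              (((hp j).coprime_iff_not_dvd).2 h5)) e5
        have e7 := Int.natCast_dvd_natCast.2 e6
        rw [Nat.cast_sub hX] at e7
        have e8 := ((hH j hj).sub e7).sub e4
        rwa [sub_sub_sub_cancel_left, sub_sub_sub_cancel_right] at e8
    have e4 := hle w θ
    rw [hHe] at e4
    have e5 : X = ∑ i ∈ range n, if w i then θ i else 0 := by
      have := Int.eq_zero_of_abs_lt_dvd e3 (by rw [abs_lt]; omega)
      omega
    have e6 := hmod w
    rw [← e5] at e6
    have e7 : X ≡ K * τ [MOD M] := by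
      rw [e2]; unfold Nat.ModEq; simp
    have e8 := Nat.ModEq.cancel_left_of_coprime hM (e6.symm.trans e7)
    have e9 := hle w c
    exact ⟨w, Nat.ModEq.eq_of_lt_of_lt e8 (by omega) (by omega)⟩

/-- Solvability of `X² + K y = H X`, `X = M z + ρ` in numbers at most `K` is hard for `NP`, the
parameters being written in binary. -/
theorem quad_hard (L : List Bool → Bool) (hL : L ∈ N68a2faeb.NP) :
    ∃ K H M ρ : List Bool → ℕ, (PT fun x => (K x : ℤ)) ∧ (PT fun x => (H x : ℤ)) ∧
      (PT fun x => (M x : ℤ)) ∧ (PT fun x => (ρ x : ℤ)) ∧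
      ∀ x, L x = true ↔ ∃ X y z : ℕ, X ≤ K x ∧ y ≤ K x ∧ z ≤ K x ∧ X * X + K x * y = H x * X ∧
        X = M x * z + ρ x := by
  obtain ⟨n, c, τ, hn, hc, hτ, h⟩ := ss_hard L hL
  let M : List Bool → ℕ := fun x =>
    (∏ j ∈ range (n x), pr (n x) j) * (∑ j ∈ range (n x), c x j + τ x + 1) + 1
  let N : List Bool → ℕ := fun x => sz ((2 * n x * M x : ℕ) : ℤ)
  let K : List Bool → ℕ := fun x => ∏ j ∈ range (n x), pr (n x) j ^ N x
  let Kj : List Bool → ℕ → ℕ := fun x j =>
    ∏ i ∈ range (n x), cond (decide (i = j)) 1 (pr (n x) i ^ N x)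
  let r : List Bool → ℕ → ℕ := fun x j => c x j * pr (n x) j ^ N x % M x
  let m : List Bool → ℕ → ℕ := fun x j =>
    cond (decide (r x j % pr (n x) j = 0)) (r x j + M x) (r x j)
  have hp : PT fun p : List Bool × ℕ => pr (n p.1) p.2 := by
    unfold pr primesFor isPr; fun_prop
  have hpz := hp.natCast
  have hM : PT fun x => (M x : ℤ) :=
    (((PT.prodRange (f := fun x j => pr (n x) j) hn hpz).intMul
      (((PT.sumRange (f := c) hn hc).intAdd hτ).intAdd (PT.const 1))).intAdd
      (PT.const 1)).of_eq fun x => by simp only [M]; push_cast; rfl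
  have hN : PT N :=
    (PT.of_eq (f := fun x => (2 : ℤ) * n x * M x) (by fun_prop) fun x => by push_cast; rfl).size
  have hq : PT fun p : List Bool × ℕ => ((pr (n p.1) p.2 ^ N p.1 : ℕ) : ℤ) :=
    (hpz.intPow (hN.comp (g := fun p : List Bool × ℕ => p.1) (by fun_prop))).of_eq fun p => by push_cast; rfl
  have hK : PT fun x => (K x : ℤ) := PT.prodRange (f := fun x j => pr (n x) j ^ N x) hn hq
  have hKj : PT fun p : List Bool × ℕ => (Kj p.1 p.2 : ℤ) := by
    refine PT.prodRange (by fun_prop) (PT.of_eq (f := fun p : (List Bool × ℕ) × ℕ =>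
      cond (decide (p.2 = p.1.2)) (1 : ℤ) ((pr (n p.1.1) p.2 ^ N p.1.1 : ℕ) : ℤ))
      (PT.cond (by fun_prop) (PT.const _)
        (hq.comp (g := fun p : (List Bool × ℕ) × ℕ => (p.1.1, p.2)) (by fun_prop))) fun p => ?_)
    cases decide (p.2 = p.1.2) <;> rfl
  have hM' : PT fun p : List Bool × ℕ => (M p.1 : ℤ) := hM.comp (by fun_prop)
  have hr : PT fun p : List Bool × ℕ => (r p.1 p.2 : ℤ) :=
    (PT.divMod (f := fun p : List Bool × ℕ => c p.1 p.2 * pr (n p.1) p.2 ^ N p.1)
      ((hc.intMul hq).of_eq fun p => by push_cast; rfl) hM' fun p => Nat.succ_pos _).snd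
  have hm : PT fun p : List Bool × ℕ => (m p.1 p.2 : ℤ) := by
    have h1 := (PT.divMod hr hpz fun p => (pr_prime _ _).pos).snd
    refine (PT.cond (h1.intEq (PT.const 0)) (hr.intAdd hM') hr).of_eq fun p => ?_
    simp only [m, Nat.cast_eq_zero]
    cases decide (r p.1 p.2 % pr (n p.1) p.2 = 0) <;> simp
  refine ⟨K, fun x => ∑ j ∈ range (n x), Kj x j * m x j, M, fun x => K x * τ x % M x, hK,
    PT.sumRange (f := fun x j => Kj x j * m x j) hn ((hKj.intMul hm).of_eq fun p => by push_cast; rfl), hM,
    (PT.divMod (f := fun x => K x * τ x) ((hK.intMul hτ).of_eq fun p => by push_cast; rfl) hM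
      fun p => Nat.succ_pos _).snd, fun x => (h x).trans ?_⟩
  have hcop : ∀ j < n x, (M x).Coprime (pr (n x) j) := fun j hj => by
    obtain ⟨u, hu⟩ := dvd_prod_of_mem (pr (n x)) (mem_range.2 hj)
    simp only [M]
    rw [hu, mul_assoc, Nat.coprime_comm, add_comm, Nat.coprime_add_mul_left_right]
    exact Nat.coprime_one_right _
  have hKK : ∀ j < n x, K x = Kj x j * pr (n x) j ^ N x := fun j hj => by
    simp only [K, Kj]
    rw [← mul_prod_erase _ _ (mem_range.2 hj), ← mul_prod_erase _ _ (mem_range.2 hj), mul_comm]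
    simp only [decide_true, cond_true, one_mul]
    congr 1
    exact prod_congr rfl fun i hi => by rw [decide_eq_false (ne_of_mem_erase hi)]; rfl
  have hP : 0 < ∏ j ∈ range (n x), pr (n x) j := prod_pos fun j _ => (pr_prime _ _).pos
  refine manders (n x) (N x) (M x) (τ x) (c x) (pr (n x)) _ (K x) (pr_prime _)
    (fun i hi j hj => pr_inj hi hj) (by simp [N]) rfl
    (Nat.Coprime.prod_right fun j hj => (hcop j (mem_range.1 hj)).pow_right _)
    (Nat.lt_succ_of_le ((Nat.le_succ _).trans (Nat.le_mul_of_pos_left _ hP))) (fun i hi j _ hij => ?_) (fun j hj hd => ?_) (fun j hj => ?_) ?_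
  · have := dvd_prod_of_mem (fun i => cond (decide (i = j)) 1 (pr (n x) i ^ N x)) (mem_range.2 hi)
    rw [decide_eq_false hij] at this
    exact this.mul_right _
  · rcases ((pr_prime _ _).dvd_mul).1 hd with h1 | h1
    · obtain ⟨i, hi, h2⟩ := ((pr_prime _ _).prime.dvd_finsetProd_iff _).1 h1
      by_cases hij : i = j
      · rw [decide_eq_true hij] at h2
        exact (pr_prime _ _).not_dvd_one h2
      · rw [decide_eq_false hij] at h2
        exact hij (pr_inj (mem_range.1 hi) hj ((Nat.prime_dvd_prime_iff_eq (pr_prime _ _)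
          (pr_prime _ _)).1 ((pr_prime _ _).dvd_of_dvd_pow h2)).symm)
    · simp only [m] at h1
      by_cases h2 : r x j % pr (n x) j = 0
      · rw [decide_eq_true h2] at h1
        exact ((pr_prime _ _).coprime_iff_not_dvd.1 (hcop j hj).symm)
          ((Nat.dvd_add_right (Nat.dvd_of_mod_eq_zero h2)).1 h1)
      · rw [decide_eq_false h2] at h1
        exact h2 (Nat.mod_eq_zero_of_dvd h1)
  · rw [hKK j hj, mul_assoc, mul_comm _ (c x j)]
    refine Nat.ModEq.mul_left _ ?_
    simp only [m]
    cases decide (r x j % pr (n x) j = 0)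
    · exact Nat.mod_modEq _ _
    · simp [r, Nat.ModEq]
  · rcases Nat.eq_zero_or_pos (n x) with h0 | h0
    · simp [K, h0]
    · refine Nat.lt_of_mul_lt_mul_left (a := n x) ?_
      rw [mul_sum]
      refine (sum_lt_sum_of_nonempty (g := fun _ => K x) (nonempty_range_iff.2 h0.ne')
        fun j hj => ?_).trans_eq (by simp)
      have e1 : m x j < 2 * M x := by
        have : r x j < M x := Nat.mod_lt _ (Nat.succ_pos _)
        simp only [m]
        cases decide (r x j % pr (n x) j = 0) <;> simp <;> omega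
      have e2 : 2 * n x * M x < pr (n x) j ^ N x := by
        refine (Nat.lt_size_self _).trans_le ((Nat.pow_le_pow_left (pr_prime (n x) j).two_le
          _).trans (Nat.pow_le_pow_right (pr_prime _ _).pos ?_))
        simp only [N, sz_int, Int.natAbs_natCast]; omega
      have e3 : 0 < Kj x j := by
        refine prod_pos fun i _ => ?_
        cases decide (i = j)
        · exact pow_pos (pr_prime _ _).pos _
        · exact Nat.one_pos
      rw [hKK j (mem_range.1 hj), mul_left_comm]
      refine Nat.mul_lt_mul_of_pos_left ?_ e3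
      nlinarith

end Pool.Agent.Lib.helper77
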